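import Pool.Agent.H61.FS.W

set_option autoImplicit false

/-!
TF-lemma (section 8 of proofs 252, MP_a4b3b2_al), interface-free form.
`M1`, `M2` are additive groups of exponent 2 (in the application the abelian groups `P0` of
one or two generators `c`), `i1 : M1 -> G`, `i2 : M2 -> G` are multiplicative; operators are
realised simultaneously on both by conjugation with an element of `G`.
-/

open scoped commutatorElement

namespace Pool.Agent.H61.FS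

section TF

variable {G M1 M2 : Type*} [Group G] [AddCommGroup M1] [AddCommGroup M2]

/-- `T1` and `T2` are realised by conjugation by one element of `G`. -/
def Real (i1 : M1 → G) (i2 : M2 → G) (T1 : M1 → M1) (T2 : M2 → M2) : Prop :=
  ∃ g : G, (∀ p, i1 (T1 p) = g * i1 p * g⁻¹) ∧ (∀ q, i2 (T2 q) = g * i2 q * g⁻¹)

theorem commute_conj {x y : G} (g : G) (h : Commute x y) :
    Commute (g * x * g⁻¹) (g * y * g⁻¹) := by
  have h1 : x * y = y * x := h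
  change g * x * g⁻¹ * (g * y * g⁻¹) = g * y * g⁻¹ * (g * x * g⁻¹)
  calc g * x * g⁻¹ * (g * y * g⁻¹) = g * (x * y) * g⁻¹ := by group
    _ = g * (y * x) * g⁻¹ := by rw [h1]
    _ = g * y * g⁻¹ * (g * x * g⁻¹) := by group

omit [AddCommGroup M1] [AddCommGroup M2] in
theorem Real.commute {i1 : M1 → G} {i2 : M2 → G} {T1 : M1 → M1} {T2 : M2 → M2}
    (h : Real i1 i2 T1 T2) {p : M1} {q : M2} (hc : Commute (i1 p) (i2 q)) :
    Commute (i1 (T1 p)) (i2 (T2 q)) := by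
  obtain ⟨g, h1, h2⟩ := h
  rw [h1, h2]
  exact commute_conj g hc

/-- The half step: `i1 ((1-e) w)` commutes with `i2 (e q)`. -/
theorem core {i1 : M1 → G} {i2 : M2 → G}
    (a1 : ∀ p p', i1 (p + p') = i1 p * i1 p') (a2 : ∀ q q', i2 (q + q') = i2 q * i2 q')
    (X1 Y1 Z1 : M1 →+ M1) (X2 Y2 Z2 : M2 →+ M2)
    (e1 f1 : M1 →+ M1) (e2 f2 : M2 →+ M2)
    (ef1 : ∀ p, e1 p + f1 p = p) (ef2 : ∀ q, e2 q + f2 q = q)
    (e1f1 : ∀ p, e1 (f1 p) = 0) (f2e2 : ∀ q, f2 (e2 q) = 0)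
    (e1Y : ∀ p, e1 (Y1 p) = Y1 (e1 p)) (e1Z : ∀ p, e1 (Z1 p) = Z1 (e1 p))
    (f1X : ∀ p, f1 (X1 p) = X1 (f1 p)) (f1Z : ∀ p, f1 (Z1 p) = Z1 (f1 p))
    (f2Y : ∀ q, f2 (Y2 q) = Y2 (f2 q)) (f2Z : ∀ q, f2 (Z2 q) = Z2 (f2 q))
    (e2Z : ∀ q, e2 (Z2 q) = Z2 (e2 q))
    (YZ1 : ∀ p, Y1 (Z1 p) = Z1 (Y1 p))
    (two1 : ∀ p : M1, p + p = 0) (two2 : ∀ q : M2, q + q = 0)
    (z1 : ∀ p, Z1 (Z1 (Z1 (Z1 (Z1 p)))) = Z1 (Z1 p) + p)
    (z2 : ∀ q, Z2 (Z2 (Z2 (Z2 (Z2 q)))) = Z2 (Z2 q) + q)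
    (Let : Set M1) (hLetZ : ∀ w ∈ Let, Z1 w ∈ Let)
    (type0 : ∀ w ∈ Let, ∃ k : ℕ, ∃ w0 ∈ Let, w = X1^[k] w0 ∧ Y1 w0 = w0)
    (type1 : ∀ w ∈ Let, ∃ k : ℕ, ∃ w0 ∈ Let, w = X1^[k] w0 ∧ Y1 (Z1 w0) = w0)
    (Q : Set M2) (hQZ : ∀ q ∈ Q, Z2 q ∈ Q) (hQa : ∀ q ∈ Q, ∀ q' ∈ Q, q + q' ∈ Q)
    (hcomm : ∀ w ∈ Let, ∀ q ∈ Q, Commute (i1 w) (i2 q))
    (ry0 : Real i1 i2 (fun p => f1 p + Y1 (e1 p)) (fun q => f2 q + Y2 (e2 q)))
    (ry1 : Real i1 i2 (fun p => f1 p + Y1 (Z1 (e1 p))) (fun q => f2 q + Y2 (Z2 (e2 q))))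
    (rz : Real i1 i2 (fun p => e1 p + Z1 (f1 p)) (fun q => e2 q + Z2 (f2 q)))
    (rx : Real i1 i2 (fun p => e1 p + X1 (f1 p)) (fun q => e2 q + X2 (f2 q))) :
    ∀ w ∈ Let, ∀ q ∈ Q, Commute (i1 (f1 w)) (i2 (e2 q)) := by
  have c1 : ∀ p p' : M1, ∀ x : G, Commute (i1 p) x → Commute (i1 p') x →
      Commute (i1 (p + p')) x := by
    intro p p' x h h'
    rw [a1]; exact h.mul_left h'
  have c2 : ∀ q q' : M2, ∀ x : G, Commute x (i2 q) → Commute x (i2 q') →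
      Commute x (i2 (q + q')) := by
    intro q q' x h h'
    rw [a2]; exact h.mul_right h'
  -- the general step for an operator U
  have stepA : ∀ (U1 : M1 →+ M1) (U2 : M2 →+ M2),
      (∀ p, e1 (U1 p) = U1 (e1 p)) → (∀ q, f2 (U2 q) = U2 (f2 q)) →
      (∀ p, U1 (Z1 p) = Z1 (U1 p)) →
      Real i1 i2 (fun p => f1 p + U1 (e1 p)) (fun q => f2 q + U2 (e2 q)) →
      ∀ w0 ∈ Let, U1 w0 = w0 → ∀ k : ℕ, ∀ q ∈ Q,
        Commute (i1 (f1 (X1^[k] w0))) (i2 (U2 (e2 q) + e2 q)) := by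
    intro U1 U2 hU1 hU2 hUZ rU w0 hw0 hfix k q hq
    set w' : M1 := Z1 (Z1 (Z1 (Z1 w0))) + Z1 (Z1 (Z1 w0)) + Z1 (Z1 w0) with hw'
    have hZw' : Z1 w' + w' = w0 := by
      have h5 := z1 w0
      have t3 := two1 (Z1 (Z1 (Z1 w0)))
      have t4 := two1 (Z1 (Z1 (Z1 (Z1 w0))))
      have t2 := two1 (Z1 (Z1 w0))
      rw [hw']
      simp only [map_add]
      rw [h5]
      calc Z1 (Z1 w0) + w0 + Z1 (Z1 (Z1 (Z1 w0))) + Z1 (Z1 (Z1 w0)) +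
            (Z1 (Z1 (Z1 (Z1 w0))) + Z1 (Z1 (Z1 w0)) + Z1 (Z1 w0))
          = w0 + (Z1 (Z1 w0) + Z1 (Z1 w0)) + (Z1 (Z1 (Z1 w0)) + Z1 (Z1 (Z1 w0)))
            + (Z1 (Z1 (Z1 (Z1 w0))) + Z1 (Z1 (Z1 (Z1 w0)))) := by abel
        _ = w0 := by rw [t2, t3, t4]; abel
    have hUw' : U1 w' = w' := by
      rw [hw']
      simp only [map_add, hUZ, hfix]
    have l1 := hLetZ w0 hw0
    have l2 := hLetZ _ l1
    have l3 := hLetZ _ l2
    have l4 := hLetZ _ l3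
    have hcw : Commute (i1 w') (i2 q) :=
      c1 _ _ _ (c1 _ _ _ (hcomm _ l4 q hq) (hcomm _ l3 q hq)) (hcomm _ l2 q hq)
    -- conjugate by y z^i
    have hy := rU.commute hcw
    have hTw : f1 w' + U1 (e1 w') = w' := by
      rw [← hU1, hUw', add_comm, ef1]
    simp only [hTw] at hy
    have hv : Commute (i1 w') (i2 (U2 (e2 q) + e2 q)) := by
      have := c2 _ _ _ hy hcw
      have e : f2 q + U2 (e2 q) + q = U2 (e2 q) + e2 q := by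
        have t := two2 (f2 q)
        calc f2 q + U2 (e2 q) + q = f2 q + U2 (e2 q) + (e2 q + f2 q) := by rw [ef2]
          _ = U2 (e2 q) + e2 q + (f2 q + f2 q) := by abel
          _ = U2 (e2 q) + e2 q := by rw [t, add_zero]
      rwa [e] at this
    set v : M2 := U2 (e2 q) + e2 q with hvdef
    have hfv : f2 v = 0 := by
      rw [hvdef, map_add, hU2, f2e2, map_zero, add_zero]
    have hev : e2 v = v := by
      have := ef2 v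
      rwa [hfv, add_zero] at this
    -- conjugate by z*
    have hz := rz.commute hv
    simp only [hfv, hev, map_zero, add_zero] at hz
    have hz2 := c1 _ _ _ hz hv
    have e2' : e1 w' + Z1 (f1 w') + w' = f1 w0 := by
      have t := two1 (e1 w')
      calc e1 w' + Z1 (f1 w') + w' = e1 w' + Z1 (f1 w') + (e1 w' + f1 w') := by rw [ef1]
        _ = (e1 w' + e1 w') + (Z1 (f1 w') + f1 w') := by abel
        _ = f1 (Z1 w' + w') := by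
            rw [t, zero_add, ← f1Z]; exact (map_add f1 (Z1 w') w').symm
        _ = f1 w0 := by rw [hZw']
    rw [e2'] at hz2
    -- conjugate by powers of x*
    have hff : ∀ p, f1 (f1 p) = f1 p := by
      intro p
      have := ef1 (f1 p)
      rwa [e1f1, zero_add] at this
    induction k with
    | zero => simpa using hz2
    | succ k ih =>
      have hx := rx.commute ih
      simp only [hfv, hev, map_zero, add_zero, e1f1, hff, zero_add] at hx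
      rw [Function.iterate_succ_apply', f1X]
      exact hx
  have stepB0 : ∀ w ∈ Let, ∀ q ∈ Q, Commute (i1 (f1 w)) (i2 (Y2 (e2 q) + e2 q)) := by
    intro w hw q hq
    obtain ⟨k, w0, hw0, rfl, hfix⟩ := type0 w hw
    exact stepA Y1 Y2 e1Y f2Y YZ1 ry0 w0 hw0 hfix k q hq
  have stepB1 : ∀ w ∈ Let, ∀ q ∈ Q,
      Commute (i1 (f1 w)) (i2 (Y2 (Z2 (e2 q)) + e2 q)) := by
    intro w hw q hq
    obtain ⟨k, w0, hw0, rfl, hfix⟩ := type1 w hw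
    refine stepA (Y1.comp Z1) (Y2.comp Z2) ?_ ?_ ?_ ry1 w0 hw0 hfix k q hq
    · intro p; simp only [AddMonoidHom.comp_apply]; rw [e1Y, e1Z]
    · intro p; simp only [AddMonoidHom.comp_apply]; rw [f2Y, f2Z]
    · intro p; simp only [AddMonoidHom.comp_apply]; rw [YZ1]
  have stepC : ∀ w ∈ Let, ∀ q ∈ Q, Commute (i1 (f1 w)) (i2 (Z2 (e2 q) + e2 q)) := by
    intro w hw q hq
    have h1 := stepB1 w hw q hq
    have h0 := stepB0 w hw (Z2 q) (hQZ q hq)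
    have h := c2 _ _ _ h1 h0
    have e : Y2 (Z2 (e2 q)) + e2 q + (Y2 (e2 (Z2 q)) + e2 (Z2 q)) = Z2 (e2 q) + e2 q := by
      rw [e2Z]
      have t := two2 (Y2 (Z2 (e2 q)))
      calc Y2 (Z2 (e2 q)) + e2 q + (Y2 (Z2 (e2 q)) + Z2 (e2 q))
          = (Y2 (Z2 (e2 q)) + Y2 (Z2 (e2 q))) + (Z2 (e2 q) + e2 q) := by abel
        _ = Z2 (e2 q) + e2 q := by rw [t, zero_add]
    rwa [e] at h
  intro w hw q hq
  have m2 := hQZ _ (hQZ _ hq)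
  have m3 := hQZ _ m2
  have m4 := hQZ _ m3
  have hq' := hQa _ (hQa _ m4 _ m3) _ m2
  have h := stepC w hw _ hq'
  have e : Z2 (e2 (Z2 (Z2 (Z2 (Z2 q))) + Z2 (Z2 (Z2 q)) + Z2 (Z2 q))) +
      e2 (Z2 (Z2 (Z2 (Z2 q))) + Z2 (Z2 (Z2 q)) + Z2 (Z2 q)) = e2 q := by
    have h5 := z2 q
    have t3 := two2 (Z2 (Z2 (Z2 q)))
    have t4 := two2 (Z2 (Z2 (Z2 (Z2 q))))
    have t2 := two2 (Z2 (Z2 q))
    rw [← e2Z, ← map_add]
    congr 1
    simp only [map_add]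
    rw [h5]
    calc Z2 (Z2 q) + q + Z2 (Z2 (Z2 (Z2 q))) + Z2 (Z2 (Z2 q)) +
          (Z2 (Z2 (Z2 (Z2 q))) + Z2 (Z2 (Z2 q)) + Z2 (Z2 q))
        = q + (Z2 (Z2 q) + Z2 (Z2 q)) + (Z2 (Z2 (Z2 q)) + Z2 (Z2 (Z2 q)))
          + (Z2 (Z2 (Z2 (Z2 q))) + Z2 (Z2 (Z2 (Z2 q)))) := by abel
      _ = q := by rw [t2, t3, t4]; abel
  rwa [e] at h


theorem comm_expand {a b c d : G} (hab : Commute a b) (hcd : Commute c d)
    (had : Commute a d) (hbc : Commute b c) (h : Commute (a * b) (c * d)) :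
    ⁅a, c⁆ * ⁅b, d⁆ = 1 := by
  have h1 : a * b * (c * d) = c * d * (a * b) := h
  have hab' : a * b = b * a := hab
  have hcd' : c * d = d * c := hcd
  have had' : a * d = d * a := had
  have hbc' : b * c = c * b := hbc
  have k1 : a * b * (c * d) = a * c * (b * d) := by
    calc a * b * (c * d) = a * (b * c) * d := by group
      _ = a * (c * b) * d := by rw [hbc']
      _ = a * c * (b * d) := by group
  have k2 : c * d * (a * b) = c * a * (d * b) := by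
    calc c * d * (a * b) = c * (d * a) * b := by group
      _ = c * (a * d) * b := by rw [had']
      _ = c * a * (d * b) := by group
  rw [k1, k2] at h1
  -- a c (b d) = c a (d b)
  have h2 : (c * a)⁻¹ * (a * c) = (d * b) * (b * d)⁻¹ := by
    calc (c * a)⁻¹ * (a * c) = (c * a)⁻¹ * (a * c * (b * d)) * (b * d)⁻¹ := by group
      _ = (c * a)⁻¹ * (c * a * (d * b)) * (b * d)⁻¹ := by rw [h1]
      _ = (d * b) * (b * d)⁻¹ := by group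
  have h3 : ⁅a, c⁆ = (c * a) * ((c * a)⁻¹ * (a * c)) * (c * a)⁻¹ := by
    rw [commutatorElement_def]; group
  have h4 : (⁅b, d⁆)⁻¹ = (d * b) * (b * d)⁻¹ := by
    rw [commutatorElement_def]; group
  -- need commutation of ⁅b,d⁆ with c * a
  have h5 : Commute (c * a) ((d * b) * (b * d)⁻¹) := by
    have e1 : Commute (c * a) (d * b) :=
      (hcd.mul_right hbc.symm).mul_left (had.mul_right hab)
    have e2 : Commute (c * a) (b * d) :=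
      (hbc.symm.mul_right hcd).mul_left (hab.mul_right had)
    exact e1.mul_right e2.inv_right
  rw [h3, h2]
  have h6 : (c * a) * ((d * b) * (b * d)⁻¹) = ((d * b) * (b * d)⁻¹) * (c * a) := h5
  rw [h6, mul_inv_cancel_right, ← h4, inv_mul_cancel]


theorem comm_mul_l {a b c : G} (h : Commute ⁅b, c⁆ a) (h' : Commute ⁅b, c⁆ c) :
    ⁅a * b, c⁆ = ⁅a, c⁆ * ⁅b, c⁆ := by
  have h2 : Commute ⁅b, c⁆ ⁅a, c⁆ := by
    rw [commutatorElement_def a c]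
    exact ((h.mul_right h').mul_right h.inv_right).mul_right h'.inv_right
  have h3 : ⁅a * b, c⁆ = a * ⁅b, c⁆ * a⁻¹ * ⁅a, c⁆ := by
    simp only [commutatorElement_def]; group
  rw [h3, ← h.eq, mul_inv_cancel_right, h2.eq]

theorem comm_mul_r {a b c : G} (h : Commute ⁅a, c⁆ b) :
    ⁅a, b * c⁆ = ⁅a, b⁆ * ⁅a, c⁆ := by
  have h3 : ⁅a, b * c⁆ = ⁅a, b⁆ * (b * ⁅a, c⁆ * b⁻¹) := by
    simp only [commutatorElement_def]; group
  rw [h3, ← h.eq, mul_inv_cancel_right]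

theorem comm_conj (g a b : G) : ⁅g * a * g⁻¹, g * b * g⁻¹⁆ = g * ⁅a, b⁆ * g⁻¹ := by
  simp only [commutatorElement_def]; group

/-- All operators of one pair are realised. -/
structure Reals (i1 : M1 → G) (i2 : M2 → G) (X1 Y1 Z1 e1 f1 : M1 →+ M1)
    (X2 Y2 Z2 e2 f2 : M2 →+ M2) : Prop where
  ry0 : Real i1 i2 (fun p => f1 p + Y1 (e1 p)) (fun q => f2 q + Y2 (e2 q))
  ry1 : Real i1 i2 (fun p => f1 p + Y1 (Z1 (e1 p))) (fun q => f2 q + Y2 (Z2 (e2 q)))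
  rz : Real i1 i2 (fun p => e1 p + Z1 (f1 p)) (fun q => e2 q + Z2 (f2 q))
  rx : Real i1 i2 (fun p => e1 p + X1 (f1 p)) (fun q => e2 q + X2 (f2 q))

/-- The step of the TF-lemma: `e q ∈ Q` for `q ∈ Q`. -/
theorem TF_step {i1 : M1 → G} {i2 : M2 → G}
    (a1 : ∀ p p', i1 (p + p') = i1 p * i1 p') (a2 : ∀ q q', i2 (q + q') = i2 q * i2 q')
    (X1 Y1 Z1 : M1 →+ M1) (X2 Y2 Z2 : M2 →+ M2)
    (e1 f1 : M1 →+ M1) (e2 f2 : M2 →+ M2)
    (ef1 : ∀ p, e1 p + f1 p = p) (ef2 : ∀ q, e2 q + f2 q = q)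
    (e1f1 : ∀ p, e1 (f1 p) = 0) (f1e1 : ∀ p, f1 (e1 p) = 0)
    (e2f2 : ∀ q, e2 (f2 q) = 0) (f2e2 : ∀ q, f2 (e2 q) = 0)
    (e1X : ∀ p, e1 (X1 p) = X1 (e1 p)) (f1X : ∀ p, f1 (X1 p) = X1 (f1 p))
    (e1Y : ∀ p, e1 (Y1 p) = Y1 (e1 p)) (f1Y : ∀ p, f1 (Y1 p) = Y1 (f1 p))
    (e1Z : ∀ p, e1 (Z1 p) = Z1 (e1 p)) (f1Z : ∀ p, f1 (Z1 p) = Z1 (f1 p))
    (e2Y : ∀ q, e2 (Y2 q) = Y2 (e2 q)) (f2Y : ∀ q, f2 (Y2 q) = Y2 (f2 q))
    (e2Z : ∀ q, e2 (Z2 q) = Z2 (e2 q)) (f2Z : ∀ q, f2 (Z2 q) = Z2 (f2 q))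
    (YZ1 : ∀ p, Y1 (Z1 p) = Z1 (Y1 p))
    (two1 : ∀ p : M1, p + p = 0) (two2 : ∀ q : M2, q + q = 0)
    (z1 : ∀ p, Z1 (Z1 (Z1 (Z1 (Z1 p)))) = Z1 (Z1 p) + p)
    (z2 : ∀ q, Z2 (Z2 (Z2 (Z2 (Z2 q)))) = Z2 (Z2 q) + q)
    (Let : Set M1) (hLetZ : ∀ w ∈ Let, Z1 w ∈ Let)
    (type0 : ∀ w ∈ Let, ∃ k : ℕ, ∃ w0 ∈ Let, w = X1^[k] w0 ∧ Y1 w0 = w0)
    (type1 : ∀ w ∈ Let, ∃ k : ℕ, ∃ w0 ∈ Let, w = X1^[k] w0 ∧ Y1 (Z1 w0) = w0)
    (Q : AddSubgroup M2) (hQZ : ∀ q ∈ Q, Z2 q ∈ Q)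
    (hcomm : ∀ w ∈ Let, ∀ q ∈ Q, Commute (i1 w) (i2 q))
    (R : Reals i1 i2 X1 Y1 Z1 e1 f1 X2 Y2 Z2 e2 f2)
    (R' : Reals i1 i2 X1 Y1 Z1 f1 e1 X2 Y2 Z2 f2 e2) :
    ∀ w ∈ Let, ∀ q ∈ Q, Commute (i1 w) (i2 (e2 q)) := by
  have fe1 : ∀ p, f1 p + e1 p = p := fun p => by rw [add_comm, ef1]
  have fe2 : ∀ p, f2 p + e2 p = p := fun p => by rw [add_comm, ef2]
  have ee1 : ∀ p, e1 (e1 p) = e1 p := by
    intro p; have := ef1 (e1 p); rwa [f1e1, add_zero] at this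
  have ee2 : ∀ p, e2 (e2 p) = e2 p := by
    intro p; have := ef2 (e2 p); rwa [f2e2, add_zero] at this
  have ff1 : ∀ p, f1 (f1 p) = f1 p := by
    intro p; have := ef1 (f1 p); rwa [e1f1, zero_add] at this
  have ff2 : ∀ p, f2 (f2 p) = f2 p := by
    intro p; have := ef2 (f2 p); rwa [e2f2, zero_add] at this
  -- (i) and (ii) on letters
  have A0 : ∀ w ∈ Let, ∀ q ∈ Q, Commute (i1 (f1 w)) (i2 (e2 q)) :=
    core a1 a2 X1 Y1 Z1 X2 Y2 Z2 e1 f1 e2 f2 ef1 ef2 e1f1 f2e2 e1Y e1Z f1X f1Z f2Y f2Z e2Z YZ1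
      two1 two2 z1 z2 Let hLetZ type0 type1 (Q : Set M2) hQZ (fun q hq q' hq' => Q.add_mem hq hq')
      hcomm R.ry0 R.ry1 R.rz R.rx
  have B0 : ∀ w ∈ Let, ∀ q ∈ Q, Commute (i1 (e1 w)) (i2 (f2 q)) :=
    core a1 a2 X1 Y1 Z1 X2 Y2 Z2 f1 e1 f2 e2 fe1 fe2 f1e1 e2f2 f1Y f1Z e1X e1Z e2Y e2Z f2Z YZ1
      two1 two2 z1 z2 Let hLetZ type0 type1 (Q : Set M2) hQZ (fun q hq q' hq' => Q.add_mem hq hq')
      hcomm R'.ry0 R'.ry1 R'.rz R'.rx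
  -- extend to the span of the letters
  set A : AddSubgroup M1 := AddSubgroup.closure Let with hA
  have ext : ∀ (T : M1 →+ M1) (x : G), (∀ w ∈ Let, Commute (i1 (T w)) x) →
      ∀ w ∈ A, Commute (i1 (T w)) x := by
    intro T x h w hw
    have h0 : i1 0 = 1 := by
      have := a1 0 0
      rw [add_zero] at this
      exact (mul_eq_left.mp this.symm)
    induction hw using AddSubgroup.closure_induction with
    | mem y hy => exact h y hy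
    | zero => rw [map_zero, h0]; exact Commute.one_left x
    | add y z _ _ hy hz => rw [map_add, a1]; exact hy.mul_left hz
    | neg y _ hy =>
      have e : -y = y := neg_eq_of_add_eq_zero_left (two1 y)
      rw [e]; exact hy
  have A1 : ∀ w ∈ A, ∀ q ∈ Q, Commute (i1 (f1 w)) (i2 (e2 q)) :=
    fun w hw q hq => ext f1 _ (fun w hw => A0 w hw q hq) w hw
  have B1 : ∀ w ∈ A, ∀ q ∈ Q, Commute (i1 (e1 w)) (i2 (f2 q)) :=
    fun w hw q hq => ext e1 _ (fun w hw => B0 w hw q hq) w hw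
  have C1 : ∀ w ∈ A, ∀ q ∈ Q, Commute (i1 w) (i2 q) :=
    fun w hw q hq => ext (AddMonoidHom.id M1) _ (fun w hw => hcomm w hw q hq) w hw
  have comm1 : ∀ p p', Commute (i1 p) (i1 p') := by
    intro p p'
    change i1 p * i1 p' = i1 p' * i1 p
    rw [← a1, ← a1, add_comm]
  have comm2 : ∀ p p', Commute (i2 p) (i2 p') := by
    intro p p'
    change i2 p * i2 p' = i2 p' * i2 p
    rw [← a2, ← a2, add_comm]
  have K : ∀ w ∈ A, ∀ q ∈ Q, ⁅i1 (e1 w), i2 (e2 q)⁆ * ⁅i1 (f1 w), i2 (f2 q)⁆ = 1 := by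
    intro w hw q hq
    refine comm_expand (comm1 _ _) (comm2 _ _) (B1 w hw q hq) (A1 w hw q hq) ?_
    rw [← a1, ← a2, ef1, ef2]
    exact C1 w hw q hq
  have K' : ∀ w ∈ A, ∀ q ∈ Q, ⁅i1 (e1 w), i2 (e2 q)⁆ = (⁅i1 (f1 w), i2 (f2 q)⁆)⁻¹ :=
    fun w hw q hq => eq_inv_of_mul_eq_one_left (K w hw q hq)
  -- the commutator commutes with e-parts
  have D1 : ∀ w ∈ A, ∀ q ∈ Q, ∀ w' ∈ A, Commute ⁅i1 (e1 w), i2 (e2 q)⁆ (i1 (e1 w')) := by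
    intro w hw q hq w' hw'
    rw [K' w hw q hq]
    refine Commute.inv_left ?_
    rw [commutatorElement_def]
    have h1 : Commute (i1 (f1 w)) (i1 (e1 w')) := comm1 _ _
    have h2 : Commute (i2 (f2 q)) (i1 (e1 w')) := (B1 w' hw' q hq).symm
    exact ((h1.mul_left h2).mul_left h1.inv_left).mul_left h2.inv_left
  have D2 : ∀ w ∈ A, ∀ q ∈ Q, ∀ q' ∈ Q, Commute ⁅i1 (e1 w), i2 (e2 q)⁆ (i2 (e2 q')) := by
    intro w hw q hq q' hq'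
    rw [K' w hw q hq]
    refine Commute.inv_left ?_
    rw [commutatorElement_def]
    have h1 : Commute (i1 (f1 w)) (i2 (e2 q')) := A1 w hw q' hq'
    have h2 : Commute (i2 (f2 q)) (i2 (e2 q')) := comm2 _ _
    exact ((h1.mul_left h2).mul_left h1.inv_left).mul_left h2.inv_left
  -- kappa
  have hZA : ∀ w ∈ A, Z1 w ∈ A := by
    intro w hw
    induction hw using AddSubgroup.closure_induction with
    | mem y hy => exact AddSubgroup.subset_closure (hLetZ y hy)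
    | zero => rw [map_zero]; exact A.zero_mem
    | add y z _ _ hy hz => rw [map_add]; exact A.add_mem hy hz
    | neg y _ hy => rw [map_neg]; exact A.neg_mem hy
  obtain ⟨gz, gz1, gz2⟩ := R'.rz
  have kap : ∀ (a : A) (q : Q), ⁅i1 (e1 a), i2 (e2 q)⁆ = 1 := by
    intro a q
    refine W2 (A := A) (B := Q) (fun a => ⟨Z1 a, hZA a a.2⟩) (fun q => ⟨Z2 q, hQZ q q.2⟩)
      ?_ ?_ ?_ (fun a q => ⁅i1 (e1 a), i2 (e2 q)⁆) ?_ ?_ ?_ a q
    · intro a; apply Subtype.ext; exact z1 a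
    · intro q; apply Subtype.ext; exact z2 q
    · intro q; apply Subtype.ext; exact two2 q
    · intro a a' q
      have h := D1 a' a'.2 q q.2 a a.2
      simp only [AddSubgroup.coe_add, map_add, a1]
      exact comm_mul_l h (D2 a' a'.2 q q.2 q q.2)
    · intro a q q'
      have h := D2 a a.2 q' q'.2 q q.2
      simp only [AddSubgroup.coe_add, map_add, a2]
      exact comm_mul_r h
    · intro a q
      have h1 := gz1 (e1 a)
      have h2 := gz2 (e2 q)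
      simp only [ee1, ee2, f1e1, f2e2, zero_add] at h1 h2
      have h3 := gz1 (f1 a)
      have h4 := gz2 (f2 q)
      simp only [ff1, ff2, e1f1, e2f2, map_zero, add_zero] at h3 h4
      change ⁅i1 (e1 (Z1 a)), i2 (e2 (Z2 q))⁆ = ⁅i1 (e1 a), i2 (e2 q)⁆
      rw [e1Z, e2Z, h1, h2, comm_conj, K' a a.2 q q.2]
      have h5 : gz * (⁅i1 (f1 a), i2 (f2 q)⁆)⁻¹ * gz⁻¹ =
          (⁅gz * i1 (f1 a) * gz⁻¹, gz * i2 (f2 q) * gz⁻¹⁆)⁻¹ := by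
        rw [comm_conj]; group
      rw [h5, ← h3, ← h4]
  intro w hw q hq
  have hwA : w ∈ A := AddSubgroup.subset_closure hw
  have h1 : Commute (i1 (e1 w)) (i2 (e2 q)) :=
    commutatorElement_eq_one_iff_commute.mp (kap ⟨w, hwA⟩ ⟨q, hq⟩)
  have h2 := A1 w hwA q hq
  have h3 : i1 w = i1 (e1 w) * i1 (f1 w) := by rw [← a1, ef1]
  rw [h3]
  exact h1.mul_left h2


omit [AddCommGroup M1] [AddCommGroup M2] in
theorem Real.comp {i1 : M1 → G} {i2 : M2 → G} {T1 S1 : M1 → M1} {T2 S2 : M2 → M2}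
    (h : Real i1 i2 T1 T2) (h' : Real i1 i2 S1 S2) {U1 : M1 → M1} {U2 : M2 → M2}
    (e1 : ∀ p, T1 (S1 p) = U1 p) (e2 : ∀ p, T2 (S2 p) = U2 p) : Real i1 i2 U1 U2 := by
  obtain ⟨g, h1, h2⟩ := h
  obtain ⟨k, k1, k2⟩ := h'
  refine ⟨g * k, fun p => ?_, fun q => ?_⟩
  · rw [← e1, h1, k1]; group
  · rw [← e2, h2, k2]; group

omit [AddCommGroup M1] [AddCommGroup M2] in
theorem Real.cancel {i1 : M1 → G} {i2 : M2 → G} {T1 S1 U1 : M1 → M1} {T2 S2 U2 : M2 → M2}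
    (h : Real i1 i2 T1 T2) (h' : Real i1 i2 U1 U2)
    (e1 : ∀ p, T1 (S1 p) = U1 p) (e2 : ∀ p, T2 (S2 p) = U2 p) : Real i1 i2 S1 S2 := by
  obtain ⟨g, h1, h2⟩ := h
  obtain ⟨k, k1, k2⟩ := h'
  refine ⟨g⁻¹ * k, fun p => ?_, fun q => ?_⟩
  · have a := h1 (S1 p)
    rw [e1, k1] at a
    calc i1 (S1 p) = g⁻¹ * (g * i1 (S1 p) * g⁻¹) * g := by group
      _ = g⁻¹ * (k * i1 p * k⁻¹) * g := by rw [← a]
      _ = g⁻¹ * k * i1 p * (g⁻¹ * k)⁻¹ := by group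
  · have a := h2 (S2 q)
    rw [e2, k2] at a
    calc i2 (S2 q) = g⁻¹ * (g * i2 (S2 q) * g⁻¹) * g := by group
      _ = g⁻¹ * (k * i2 q * k⁻¹) * g := by rw [← a]
      _ = g⁻¹ * k * i2 q * (g⁻¹ * k)⁻¹ := by group

/-- The step with the operators given by one idempotent `e`. -/
theorem TF_step' {i1 : M1 → G} {i2 : M2 → G}
    (a1 : ∀ p p', i1 (p + p') = i1 p * i1 p') (a2 : ∀ q q', i2 (q + q') = i2 q * i2 q')
    (X1 Y1 Z1 : M1 →+ M1) (X2 Y2 Z2 : M2 →+ M2)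
    (e1 : M1 →+ M1) (e2 : M2 →+ M2)
    (ee1 : ∀ p, e1 (e1 p) = e1 p) (ee2 : ∀ q, e2 (e2 q) = e2 q)
    (e1X : ∀ p, e1 (X1 p) = X1 (e1 p)) (e1Y : ∀ p, e1 (Y1 p) = Y1 (e1 p))
    (e1Z : ∀ p, e1 (Z1 p) = Z1 (e1 p))
    (e2X : ∀ p, e2 (X2 p) = X2 (e2 p)) (e2Y : ∀ p, e2 (Y2 p) = Y2 (e2 p))
    (e2Z : ∀ p, e2 (Z2 p) = Z2 (e2 p))
    (YZ1 : ∀ p, Y1 (Z1 p) = Z1 (Y1 p))
    (two1 : ∀ p : M1, p + p = 0) (two2 : ∀ q : M2, q + q = 0)
    (z1 : ∀ p, Z1 (Z1 (Z1 (Z1 (Z1 p)))) = Z1 (Z1 p) + p)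
    (z2 : ∀ q, Z2 (Z2 (Z2 (Z2 (Z2 q)))) = Z2 (Z2 q) + q)
    (Let : Set M1) (hLetZ : ∀ w ∈ Let, Z1 w ∈ Let)
    (type0 : ∀ w ∈ Let, ∃ k : ℕ, ∃ w0 ∈ Let, w = X1^[k] w0 ∧ Y1 w0 = w0)
    (type1 : ∀ w ∈ Let, ∃ k : ℕ, ∃ w0 ∈ Let, w = X1^[k] w0 ∧ Y1 (Z1 w0) = w0)
    (Q : AddSubgroup M2) (hQZ : ∀ q ∈ Q, Z2 q ∈ Q)
    (hcomm : ∀ w ∈ Let, ∀ q ∈ Q, Commute (i1 w) (i2 q))
    (rX : Real i1 i2 X1 X2) (rY : Real i1 i2 Y1 Y2) (rZ : Real i1 i2 Z1 Z2)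
    (rx : Real i1 i2 (fun p => p + e1 p + X1 (e1 p)) (fun q => q + e2 q + X2 (e2 q)))
    (ry : Real i1 i2 (fun p => p + e1 p + Y1 (e1 p)) (fun q => q + e2 q + Y2 (e2 q)))
    (rz : Real i1 i2 (fun p => p + e1 p + Z1 (e1 p)) (fun q => q + e2 q + Z2 (e2 q))) :
    ∀ w ∈ Let, ∀ q ∈ Q, Commute (i1 w) (i2 (e2 q)) := by
  set f1 : M1 →+ M1 := AddMonoidHom.id M1 + e1 with hf1
  set f2 : M2 →+ M2 := AddMonoidHom.id M2 + e2 with hf2
  have F1 : ∀ p, f1 p = p + e1 p := fun p => rfl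
  have F2 : ∀ p, f2 p = p + e2 p := fun p => rfl
  have ef1 : ∀ p, e1 p + f1 p = p := by
    intro p
    rw [F1]
    calc e1 p + (p + e1 p) = p + (e1 p + e1 p) := by abel
      _ = p := by rw [two1, add_zero]
  have ef2 : ∀ p, e2 p + f2 p = p := by
    intro p
    rw [F2]
    calc e2 p + (p + e2 p) = p + (e2 p + e2 p) := by abel
      _ = p := by rw [two2, add_zero]
  have e1f1 : ∀ p, e1 (f1 p) = 0 := fun p => by rw [F1, map_add, ee1, two1]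
  have e2f2 : ∀ p, e2 (f2 p) = 0 := fun p => by rw [F2, map_add, ee2, two2]
  have f1e1 : ∀ p, f1 (e1 p) = 0 := fun p => by rw [F1, ee1, two1]
  have f2e2 : ∀ p, f2 (e2 p) = 0 := fun p => by rw [F2, ee2, two2]
  have ff1 : ∀ p, f1 (f1 p) = f1 p := by
    intro p; have := ef1 (f1 p); rwa [e1f1, zero_add] at this
  have ff2 : ∀ p, f2 (f2 p) = f2 p := by
    intro p; have := ef2 (f2 p); rwa [e2f2, zero_add] at this
  have f1X : ∀ p, f1 (X1 p) = X1 (f1 p) := fun p => by rw [F1, F1, map_add, e1X]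
  have f1Y : ∀ p, f1 (Y1 p) = Y1 (f1 p) := fun p => by rw [F1, F1, map_add, e1Y]
  have f1Z : ∀ p, f1 (Z1 p) = Z1 (f1 p) := fun p => by rw [F1, F1, map_add, e1Z]
  have f2X : ∀ p, f2 (X2 p) = X2 (f2 p) := fun p => by rw [F2, F2, map_add, e2X]
  have f2Y : ∀ p, f2 (Y2 p) = Y2 (f2 p) := fun p => by rw [F2, F2, map_add, e2Y]
  have f2Z : ∀ p, f2 (Z2 p) = Z2 (f2 p) := fun p => by rw [F2, F2, map_add, e2Z]
  -- cancellation for an operator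
  have can : ∀ (T1 : M1 →+ M1) (T2 : M2 →+ M2), Real i1 i2 T1 T2 →
      Real i1 i2 (fun p => p + e1 p + T1 (e1 p)) (fun q => q + e2 q + T2 (e2 q)) →
      (∀ p, e1 (T1 p) = T1 (e1 p)) → (∀ p, e2 (T2 p) = T2 (e2 p)) →
      Real i1 i2 (fun p => e1 p + T1 (f1 p)) (fun q => e2 q + T2 (f2 q)) := by
    intro T1 T2 hT hu h1 h2
    refine Real.cancel hu hT ?_ ?_
    · intro p
      change e1 p + T1 (f1 p) + e1 (e1 p + T1 (f1 p)) + T1 (e1 (e1 p + T1 (f1 p))) = T1 p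
      rw [map_add, h1, e1f1, map_zero, add_zero, ee1]
      calc e1 p + T1 (f1 p) + e1 p + T1 (e1 p) = (e1 p + e1 p) + (T1 (e1 p) + T1 (f1 p)) := by abel
        _ = T1 p := by rw [two1, zero_add, ← map_add, ef1]
    · intro p
      change e2 p + T2 (f2 p) + e2 (e2 p + T2 (f2 p)) + T2 (e2 (e2 p + T2 (f2 p))) = T2 p
      rw [map_add, h2, e2f2, map_zero, add_zero, ee2]
      calc e2 p + T2 (f2 p) + e2 p + T2 (e2 p) = (e2 p + e2 p) + (T2 (e2 p) + T2 (f2 p)) := by abel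
        _ = T2 p := by rw [two2, zero_add, ← map_add, ef2]
  have cX := can X1 X2 rX rx e1X e2X
  have cY := can Y1 Y2 rY ry e1Y e2Y
  have cZ := can Z1 Z2 rZ rz e1Z e2Z
  have R : Reals i1 i2 X1 Y1 Z1 e1 f1 X2 Y2 Z2 e2 f2 := by
    refine ⟨ry, ?_, cZ, cX⟩
    refine Real.comp ry rz ?_ ?_
    · intro p
      change p + e1 p + Z1 (e1 p) + e1 (p + e1 p + Z1 (e1 p)) + Y1 (e1 (p + e1 p + Z1 (e1 p))) = _
      simp only [map_add, ee1, e1Z]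
      calc p + e1 p + Z1 (e1 p) + (e1 p + e1 p + Z1 (e1 p)) +
            (Y1 (e1 p) + Y1 (e1 p) + Y1 (Z1 (e1 p)))
          = (p + e1 p) + (Z1 (e1 p) + Z1 (e1 p)) + (e1 p + e1 p) + (Y1 (e1 p) + Y1 (e1 p))
            + Y1 (Z1 (e1 p)) := by abel
        _ = f1 p + Y1 (Z1 (e1 p)) := by
            rw [two1, two1, two1, add_zero, add_zero, add_zero, F1]
    · intro p
      change p + e2 p + Z2 (e2 p) + e2 (p + e2 p + Z2 (e2 p)) + Y2 (e2 (p + e2 p + Z2 (e2 p))) = _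
      simp only [map_add, ee2, e2Z]
      calc p + e2 p + Z2 (e2 p) + (e2 p + e2 p + Z2 (e2 p)) +
            (Y2 (e2 p) + Y2 (e2 p) + Y2 (Z2 (e2 p)))
          = (p + e2 p) + (Z2 (e2 p) + Z2 (e2 p)) + (e2 p + e2 p) + (Y2 (e2 p) + Y2 (e2 p))
            + Y2 (Z2 (e2 p)) := by abel
        _ = f2 p + Y2 (Z2 (e2 p)) := by
            rw [two2, two2, two2, add_zero, add_zero, add_zero, F2]
  have R' : Reals i1 i2 X1 Y1 Z1 f1 e1 X2 Y2 Z2 f2 e2 := by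
    refine ⟨cY, ?_, rz, rx⟩
    refine Real.comp cY cZ ?_ ?_
    · intro p
      change e1 (e1 p + Z1 (f1 p)) + Y1 (f1 (e1 p + Z1 (f1 p))) = _
      simp only [map_add, ee1, e1Z, e1f1, f1e1, f1Z, ff1, map_zero, add_zero, zero_add]
    · intro p
      change e2 (e2 p + Z2 (f2 p)) + Y2 (f2 (e2 p + Z2 (f2 p))) = _
      simp only [map_add, ee2, e2Z, e2f2, f2e2, f2Z, ff2, map_zero, add_zero, zero_add]
  exact TF_step a1 a2 X1 Y1 Z1 X2 Y2 Z2 e1 f1 e2 f2 ef1 ef2 e1f1 f1e1 e2f2 f2e2 e1X f1X e1Y f1Y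
    e1Z f1Z e2Y f2Y e2Z f2Z YZ1 two1 two2 z1 z2 Let hLetZ type0 type1 Q hQZ hcomm R R'

end TF

end Pool.Agent.H61.FS
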