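import Mathlib

set_option autoImplicit false

/-!
Weight lemmas W2, W3 (section 3 of proofs 252, MP_a4b3b2_al):
a bimultiplicative (trimultiplicative) map on groups of exponent 2 on which z satisfies
z^5 + z^2 + 1 = 0 and which is invariant under z is trivial.
-/

namespace Pool.Agent.H61.FS

/-- W2: bimultiplicative and z-invariant implies trivial. -/
theorem W2 {A B G : Type*} [AddCommGroup A] [AddCommGroup B] [Group G]
    (zA : A → A) (zB : B → B)
    (hA : ∀ a, zA (zA (zA (zA (zA a)))) = zA (zA a) + a)
    (hB : ∀ b, zB (zB (zB (zB (zB b)))) = zB (zB b) + b)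
    (twoB : ∀ b : B, b + b = 0)
    (k : A → B → G) (k1 : ∀ a a' b, k (a + a') b = k a b * k a' b)
    (k2 : ∀ a b b', k a (b + b') = k a b * k a b')
    (kz : ∀ a b, k (zA a) (zB b) = k a b) (a : A) (b : B) : k a b = 1 := by
  have k0 : ∀ a, k a 0 = 1 := by
    intro a
    have h := k2 a 0 0
    rw [add_zero] at h
    exact (mul_eq_left.mp h.symm)
  have sq : ∀ a b, k a b * k a b = 1 := by
    intro a b
    rw [← k2, twoB, k0]
  -- second variable
  have r2 : ∀ b, k a (zB (zB (zB (zB (zB b))))) = k a (zB (zB b)) * k a b := by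
    intro b
    rw [hB, k2]
  -- first variable
  have r1 : ∀ b, k a b = k a (zB (zB (zB b))) * k a (zB (zB (zB (zB (zB b))))) := by
    intro b
    have h1 : k (zA (zA (zA (zA (zA a))))) (zB (zB (zB (zB (zB b))))) = k a b := by
      rw [kz, kz, kz, kz, kz]
    rw [hA, k1, kz, kz] at h1
    exact h1.symm
  have key : ∀ b, k a (zB (zB (zB b))) = k a (zB (zB b)) := by
    intro b
    have h1 := r1 b
    rw [r2] at h1
    have h2 : k a (zB (zB (zB b))) * k a (zB (zB b)) = 1 := by
      have : k a (zB (zB (zB b))) * k a (zB (zB b)) * k a b = 1 * k a b := by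
        rw [one_mul, mul_assoc]; exact h1.symm
      exact mul_right_cancel this
    have h3 := sq a (zB (zB b))
    exact mul_right_cancel (h2.trans h3.symm)
  have h5 : k a (zB (zB (zB (zB (zB b))))) = k a (zB (zB b)) := by
    rw [key (zB (zB b)), key (zB b), key b]
  have h6 := r2 b
  rw [h5] at h6
  exact (mul_eq_left.mp h6.symm)

end Pool.Agent.H61.FS
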